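import Pool.Agent.Q241.FP.Core

set_option autoImplicit false

/-!
# The Hilbert functions `H_{2,r,m}` for all `r ≥ 10` at once, for explicit large multiplicities `m`

For `k = 0`, and for all the `k` (a set with bounded gaps, by the return times of a rotation) for which `k √n` has
distance less than `1 / 241` to an integer for the 22 numbers `n` in `openNumbers`, the multiplicity
`m = 74602991693235067300949 + k` has the following property: 
`H_{2,r,m}(d) = min (binom (d + 2) 2) (r * binom (m + 1) 2)` for all `r ≥ 10` and all `d ≥ 0`.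
-/

namespace Pool.Agent.Results.MP_b56c98_ag.EveryNumberOfPlanePoints

open Pool.Agent.Results.MP_b56c98_ag.PlaneAllDegrees

theorem result (k : ℕ)
    (hk : ∀ n ∈ Pool.Agent.Q241.FP.openNumbers, ∃ f : ℤ, |(k : ℝ) * √(n : ℝ) - f| < 1 / 241) :
    ∀ r : ℕ, 10 ≤ r → PlaneFormula r (74602991693235067300949 + k) fun _ => True := by
  refine Pool.Agent.Q241.FP.explicit (p := fun m => ∀ r : ℕ, 10 ≤ r → PlaneFormula r m fun _ => True) ?_ hk
  intro m hm hwin r hr
  obtain ⟨F, hF, hF'⟩ := Pool.Agent.Q241.FP.expDim_all hr hm hwin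
  exact formula_of ⟨F, hF, fun P hP d _ => hF' P hP d⟩

end Pool.Agent.Results.MP_b56c98_ag.EveryNumberOfPlanePoints
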