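import Mathlib
import Pool.Agent.Q197.SG.Const
import Pool.Agent.Results.MP_b56c98_ag.PlaneAllDegrees

set_option autoImplicit false

/-!
# The Hilbert functions of 11 and of 15 general fat points of the plane: every multiplicity, up to one value

The case `n = 2`, `r = 11` or `r = 15` of the question. For EVERY multiplicity `m` the Hilbert function
`H_{2,r,m}` is either the expected function `E(d) = min (binom (d + 2) 2) (r * binom (m + 1) 2)`, or it
agrees with `E` in all degrees but one degree `d₀`, where `E(d₀) = binom (d₀ + 2) 2` and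
`H_{2,r,m}(d₀) = binom (d₀ + 2) 2 - 1`. The degree `d₀` is divisible by three and lies in a short window,
so there is at most one candidate for it, and none for most multiplicities.
-/

namespace Pool.Agent.Results.MP_b56c98_ag.OneBitForElevenAndFifteen

open MvPolynomial
open scoped LinearAlgebra.Projectivization
open Pool.Agent.H350R3.MG Pool.Agent.TH3.IR
open Pool.Agent.Results.MP_b56c98_ag.PlaneAllDegrees (symbolicPower hilbert finrank_eq)
open Pool.Agent.Q197.SG (Open uni_gen dimL)

/-- The function `h` is the Hilbert function `H_{2,r,m}` of `r` general points of multiplicity `m` of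
the projective plane: this is so in all degrees for the `r`-tuples of a nonempty Zariski-open set. -/
def IsHilbertFunction (r m : ℕ) (h : ℕ → ℕ) : Prop :=
  Generally (fun P : Fin r → ℙ ℂ (Fin (2 + 1) → ℂ) => ∀ d : ℕ,
    hilbert (symbolicPower m P) d = (h d : ℤ))

/-- The expected Hilbert function. -/
def expected (r m d : ℕ) : ℕ := min ((d + 2).choose 2) (r * (m + 1).choose 2)

theorem of_dim {r m : ℕ} {h : ℕ → ℕ} (hh : ∃ F : MvPolynomial (Fin r × Fin 2) ℂ, F ≠ 0 ∧
    ∀ P : Fin r → Fin 2 → ℂ, MvPolynomial.eval (fun ij : Fin r × Fin 2 => P ij.1 ij.2) F ≠ 0 →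
      ∀ d : ℕ, ((d + 2).choose 2 : ℤ) - (dimL ℂ (fun _ => m) P d : ℤ) = (h d : ℤ)) :
    IsHilbertFunction r m h := by
  obtain ⟨F, hF, hF'⟩ := hh
  refine generally_of_affine F hF fun P hv hP d => ?_
  have h2 := hF' P hP d
  unfold hilbert
  rw [finrank_eq P hv]
  have h3 : Module.finrank ℂ (homogeneousSubmodule (Fin (2 + 1)) ℂ d) = (d + 2).choose 2 :=
    TH603.Sur.finrank_forms (K := ℂ) d
  rw [h3]
  exact h2

theorem exp_of {r m d : ℕ} {P : Fin r → Fin 2 → ℂ} (h : H932R3.ExpDim ℂ (fun _ => m) P d) :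
    ((d + 2).choose 2 : ℤ) - (dimL ℂ (fun _ => m) P d : ℤ) = (expected r m d : ℤ) := by
  rw [Pool.Agent.Q197.SG.expDim_iff, Finset.sum_const, Finset.card_univ, Fintype.card_fin, smul_eq_mul] at h
  unfold expected
  rw [h]
  omega

theorem result (r : ℕ) (hr : r = 11 ∨ r = 15) (m : ℕ) :
    IsHilbertFunction r m (expected r m) ∨
    ∃ d₀ : ℕ, Open r m d₀ ∧ expected r m d₀ = (d₀ + 2).choose 2 ∧
      IsHilbertFunction r m (Function.update (expected r m) d₀ ((d₀ + 2).choose 2 - 1)) := by
  obtain ⟨F, hF, h | ⟨d₀, h1, h2, h3⟩⟩ := uni_gen hr m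
  · exact Or.inl (of_dim ⟨F, hF, fun P hP d => exp_of (h P hP d)⟩)
  · refine Or.inr ⟨d₀, h1, min_eq_left h2, of_dim ⟨F, hF, fun P hP d => ?_⟩⟩
    obtain ⟨h4, h5⟩ := h3 P hP
    by_cases hd : d = d₀
    · subst hd
      rw [Function.update_self, h4]
      have : 0 < (d + 2).choose 2 := Nat.choose_pos (by omega)
      omega
    · rw [Function.update_of_ne hd]
      exact exp_of (h5 d hd)

end Pool.Agent.Results.MP_b56c98_ag.OneBitForElevenAndFifteen
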