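import Mathlib
import Pool.Agent.Q195.WN.Comb
import Pool.Agent.Results.MP_b56c98_ag.PlaneAllDegrees

set_option autoImplicit false

/-!
# The Hilbert function of 11 and of 15 general fat points of the plane

The case `n = 2`, `r = 11` and `r = 15` of the question. For every multiplicity `m` and every degree
`d` the value of `H_{2,r,m}(d)` is `min (binom (d + 2) 2) (r * binom (m + 1) 2)`, unless `d` is divisible
by three and lies in a window below `√r (m + 1 / 2) - 3 / 2` of length `0.0155..` (`r = 11`, two further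
pairs `(m, d)`), respectively `0.0332..` (`r = 15`). In particular the whole Hilbert function is
determined, for both `r`, for more than 98.3 percent of the multiplicities `m`.
-/

namespace Pool.Agent.Results.MP_b56c98_ag.PlaneElevenAndFifteen

open MvPolynomial
open Pool.Agent.Results.MP_b56c98_ag.PlaneAllDegrees (PlaneFormula formula_of)

theorem mono {r m : ℕ} {p q : ℕ → Prop} (h : PlaneFormula r m p) (hpq : ∀ d, q d → p d) :
    PlaneFormula r m q := by
  obtain ⟨U, h1, h2, h3⟩ := h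
  exact ⟨U, h1, h2, fun P hP d hd => h3 P hP d (hpq d hd)⟩

/-- `PlaneFormula r m good`: for `r` general points of the plane the Hilbert function has the value
`min (binom (2 + d) 2) (r * binom (2 + m - 1) 2)` in all degrees `d` with `good d`. -/
theorem result :
    (∀ m : ℕ, PlaneFormula 11 m fun d => ¬ (3 ∣ d ∧ √11 * m + (171 * √11 - 567) ≤ d ∧
      2 * (d : ℝ) + 3 < √11 * (2 * m + 1) ∧ (2 * d + 3) ^ 2 + 2 ≠ 11 * (2 * m + 1) ^ 2) ∧
      ¬ (m = 28 ∧ d = 93) ∧ ¬ (m = 47 ∧ d = 156)) ∧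
    (∀ m : ℕ, PlaneFormula 15 m fun d => ¬ (3 ∣ d ∧ √15 * m + (33 - 8 * √15) / 5 ≤ d ∧
      2 * (d : ℝ) + 3 < √15 * (2 * m + 1) ∧ (2 * d + 3) ^ 2 + 6 ≠ 15 * (2 * m + 1) ^ 2)) ∧
    (∀ ε : ℝ, 0 < ε → ∃ M₀ : ℕ, ∀ M : ℕ, M₀ ≤ M →
      (Set.ncard {m : ℕ | m < M ∧
        ¬ (PlaneFormula 11 m (fun _ => True) ∧ PlaneFormula 15 m (fun _ => True))} : ℝ) ≤
        ((1131 - 341 * √11) / 6 + (21 * √15 - 81) / 30 + ε) * M) ∧
    (1131 - 341 * √(11 : ℝ)) / 6 + (21 * √(15 : ℝ) - 81) / 30 < 0.0163 := by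
  have h11 : ∀ m : ℕ, PlaneFormula 11 m fun d => ¬ Q195.WN.Open11 m d := fun m => by
    obtain ⟨F, hF, hF'⟩ := Q195.WN.exp11 m
    exact formula_of ⟨F, hF, fun P hP d hd => hF' P hP d hd⟩
  have h15 : ∀ m : ℕ, PlaneFormula 15 m fun d => ¬ Q195.WN.Left15 m d := fun m => by
    obtain ⟨F, hF, hF'⟩ := Q195.WN.left15 m
    exact formula_of ⟨F, hF, fun P hP d hd => hF' P hP d hd⟩
  refine ⟨fun m => mono (h11 m) fun d hd => ?_, fun m => h15 m, fun ε hε => ?_,
    Q195.WN.numboth⟩
  · rintro (h1 | h1 | h1)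
    · exact hd.1 h1
    · exact hd.2.1 h1
    · exact hd.2.2 h1
  · refine Q195.WN.countboth (fun m hm => ?_) (fun m hm => ?_) hε
    · by_contra hcon
      push Not at hcon
      exact hm (mono (h11 m) fun d _ => hcon d)
    · by_contra hcon
      push Not at hcon
      exact hm (mono (h15 m) fun d _ => hcon d)

end Pool.Agent.Results.MP_b56c98_ag.PlaneElevenAndFifteen
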